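import Pool.Agent.H40.HD.BC0A

/-!
MP_ee74d2_an, theorem HD: the wave satisfies the condition of back projection.
-/

set_option autoImplicit false

namespace Pool.Agent.H40.HD

open MeasureTheory Set FourierTransform
open scoped ENNReal NNReal RealInnerProductSpace
open Pool.Agent.H82.HD
open Pool.Agent.H83.LS (EE BCd pr jo T_PLE e)
open Pool.Agent.H81.GT (SymE Ua ac IsX Gf zt xz tz Ua_split Ua_zcont Ua_conv Kt Kt_bdd Kt_fint
  sym_int' xz_cont tz_cont)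
open Pool.Agent.H83.G (E Z Ks ctr sR IsPU TF TP TC Bp cp wt Cls)
open Pool.Agent.H18.G.WM (sh continuous_sh)

theorem pf_BC0 (hBCC : T_BCC) (hBCF : T_BCF) (hBCN : T_BCN) (hBPG : T_BPG)
    (hCLS : Pool.Agent.H81.GT.T_CLS) (hREP : Pool.Agent.H81.GT.T_REP)
    (hACS : Pool.Agent.H81.GT.T_ACS) (hCOV : Pool.Agent.H81.GT.T_COV)
    (hKER : Pool.Agent.H83.G.T_KER) (hSPK : Pool.Agent.H83.G.T_SPK)
    (hKSP : Pool.Agent.H83.G.T_KSP) (hPUB : Pool.Agent.H83.G.T_PUB)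
    (hPUS : Pool.Agent.H83.G.T_PUS) (hSCH : Pool.Agent.H83.G.T_SCH)
    (hWT2 : Pool.Agent.H83.G.T_WT2) : T_BC0 := by
  intro n L κ δ β a X χ hn hL hκ hβ ha hX hδ
  obtain ⟨C₁, hC₁, hcls⟩ := hCLS n L κ δ a X χ hn hL hκ ha hX hδ
  obtain ⟨C₂, hC₂, hbcc⟩ := hBCC n L β hβ
  have hn0 : (0 : ℝ) ≤ n := Nat.cast_nonneg _
  set d : ℝ := min δ 1 / (8 * ((n : ℝ) + 2)) with hd
  have hm0 : 0 < min δ 1 := lt_min hδ one_pos
  have hd0 : 0 < d := by positivity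
  have hd1 : d ≤ 1 / 4 := by
    rw [hd, div_le_iff₀ (by positivity)]
    have := min_le_right δ 1
    linarith
  have hd2 : (2 * (n : ℝ) + 3) * d ≤ 2 * δ := by
    have h1 : (8 * ((n : ℝ) + 2)) * d = min δ 1 := by
      rw [hd]
      field_simp
    have h2 := min_le_left δ 1
    nlinarith [mul_nonneg hn0 hd0.le]
  obtain ⟨-, -, CP, hCP, hcard, -, hctr⟩ := hPUS n
  obtain ⟨Cm, c0, hCm, hc0, hmain⟩ := bc_main (D := CP) (d := d) (cK := CP) hBCF hBCN hBPG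
    hREP hACS hCOV hn hκ ha hX hCP.le hd0 hd1 hCP.le
  obtain ⟨Cc, hCc, hcrude⟩ := bc_crude (D := CP) hBCF hREP hACS hCOV hn hκ ha hX hCP.le
  obtain ⟨cz, hcz, hzv⟩ := Z_vol n
  obtain ⟨M, hM⟩ := exists_nat_ge ((6 * (n : ℝ) + 6) / d)
  rw [div_le_iff₀ hd0] at hM
  have hM' : 6 * (n : ℝ) + 6 ≤ d * M := by linarith [mul_comm d (M : ℝ)]
  obtain ⟨CB, hCB, hφ⟩ := hPUB n (n + 3 + M) β hβ
  obtain ⟨K, hK⟩ := bc_ker hKER hWT2 hSCH n (n + 3 + M) (by omega)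
  obtain ⟨CW, -, -, hCW⟩ := hWT2 n (n + 3) le_rfl
  have hCc0 : 0 ≤ Cc := by linarith
  have hCm0 : 0 ≤ Cm := by linarith
  have hCB0 : 0 < CB := by linarith
  have hC₂0 : 0 < C₂ := by linarith
  set B1 : ℝ := CP * cz * Cc ^ 2 * (c0 ^ M)⁻¹ with hB1
  have hB10 : 0 ≤ B1 := by positivity
  set C5 : ℝ := CB ^ 2 * K * (CW * (2 * Cm + B1)) with hC5
  have hC50 : 0 ≤ C5 := by positivity
  refine ⟨1 + C₂ * C₁ + C5, by
    have : 0 ≤ C₂ * C₁ := by positivity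
    linarith, ?_⟩
  intro R A f hR hA hf ρ z₁ p hρ hρR ht1 ht2
  have hR0 : 0 < R := by linarith
  have hρ0 : 0 < ρ := by linarith
  have hRδ : 1 ≤ R ^ δ := Real.one_le_rpow hR hδ.le
  set G := Gf X R a f with hG
  obtain ⟨Y, hY⟩ : ∃ Y : ℝ, Y = R ^ n * ρ ^ (3 - (n : ℝ) / 2) := ⟨_, rfl⟩
  have hY1 : 1 ≤ Y := by
    rw [hY]
    exact bc_one hR hρ hρR
  have hgoal : (( 1 + C₂ * C₁ + C5) * R ^ δ * A) ^ 2 * R ^ n * ρ ^ (3 - (n : ℝ) / 2) =
      (1 + C₂ * C₁ + C5) ^ 2 * ((R ^ δ) ^ 2 * A ^ 2 * Y) := by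
    rw [hY]
    ring
  rw [hgoal]
  rcases le_total (ρ ^ (3 / 2 : ℝ)) R with hc | hc
  · -- small scales
    have h1 := hbcc (1 / 4) R R (C₁ * R ^ δ * A) ρ G z₁ p (by norm_num) (by norm_num) hR hρ hc
      le_rfl (by positivity) (hcls R A f hR hA hf) (by linarith)
    refine h1.trans (ENNReal.ofReal_le_ofReal ?_)
    have h2 : ρ ^ (5 / 2 - (n : ℝ) / 2) ≤ ρ ^ (3 - (n : ℝ) / 2) :=
      Real.rpow_le_rpow_of_exponent_le hρ (by linarith)
    have h3 : C₂ * C₁ ^ 2 ≤ (1 + C₂ * C₁ + C5) ^ 2 := by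
      have h4 : C₂ * C₁ ^ 2 ≤ (C₂ * C₁) ^ 2 := by
        have : 0 ≤ C₂ * C₁ ^ 2 := by positivity
        nlinarith
      have h5 : (C₂ * C₁) ^ 2 ≤ (1 + C₂ * C₁ + C5) ^ 2 := by
        gcongr
        linarith
      linarith
    calc C₂ * ((C₁ * R ^ δ * A) ^ 2 * R ^ n * ρ ^ (5 / 2 - (n : ℝ) / 2))
        ≤ C₂ * ((C₁ * R ^ δ * A) ^ 2 * R ^ n * ρ ^ (3 - (n : ℝ) / 2)) := by gcongr
      _ = C₂ * C₁ ^ 2 * ((R ^ δ) ^ 2 * A ^ 2 * Y) := by
          rw [hY]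
          ring
      _ ≤ _ := by gcongr
  -- large scales
  obtain ⟨hs, hs1, hsi, hq1, hqR, hqq, hqρ⟩ := sR_facts hρ hρR
  set s : ℝ := sR ρ with hsd
  have hRs : 1 ≤ R * s := hq1.trans hqR
  have hctr' : ∀ k ∈ Ks n s, ‖ctr s k‖ ≤ CP := fun k hk => hctr s k hs hs1 hk
  have hcard' : ((Ks n s).card : ℝ) ≤ CP * R ^ n := by
    refine (hcard s hs hs1).trans ?_
    rw [hsi]
    gcongr
    exact hqρ.trans hρR
  set φ : E n → ℂ := fun x => ((CB⁻¹ : ℝ) : ℂ) * β x with hφd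
  set Gk : (Fin n → ℤ) → Z n → ℂ := fun k => Gf X R (ac a (ctr s k) s) f with hGk
  obtain ⟨T0, hT0⟩ : ∃ T0 : ℝ, T0 = (R ^ δ) ^ 2 * A ^ 2 * Y := ⟨_, rfl⟩
  have hT00 : 0 ≤ T0 := by rw [hT0]; positivity
  have hA2 : A ^ 2 ≤ T0 := by
    rw [hT0]
    have h1 : 1 ≤ (R ^ δ) ^ 2 := one_le_pow₀ hRδ
    have h2 : A ^ 2 ≤ (R ^ δ) ^ 2 * A ^ 2 := le_mul_of_one_le_left (by positivity) h1
    exact h2.trans (le_mul_of_one_le_right (by positivity) hY1)
  set S : ℝ × E n → ℝ≥0∞ := fun u => ∑ k ∈ Ks n s, ∫⁻ z in Om R ρ (ctr s k) z₁ p,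
    ‖TF (Gk k) (z - sh (ctr s k) s u)‖ₑ ^ 2 with hS
  -- one cap
  have hcap : ∀ k ∈ Ks n s, ∫⁻ z in Om R ρ (ctr s k) z₁ p, ‖TP β (ctr s k) s G z‖ₑ ^ 2 ≤
      ENNReal.ofReal (CB ^ 2) * (K * ∫⁻ u : ℝ × E n,
        ENNReal.ofReal (((1 + ‖u‖) ^ (n + 3 + M))⁻¹) * ∫⁻ z in Om R ρ (ctr s k) z₁ p,
          ‖TF (Gk k) (z - sh (ctr s k) s u)‖ₑ ^ 2) := by
    intro k hk
    obtain ⟨hb, hb1, -⟩ := hACS n κ s (ctr s k) a hκ ha hs
    obtain ⟨hTC, hRg, -⟩ := hREP n κ R A (ac a (ctr s k) s) f X χ hκ hb hX hR hf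
    have h1 : ∀ z, TP β (ctr s k) s G z = (CB : ℂ) * TP φ (ctr s k) s (Gk k) z := by
      intro z
      unfold TP
      rw [← TF_mul]
      congr 1
      funext ζ
      rw [hGk]
      simp only []
      rw [← Pool.Agent.H81.GT.cls_eq hκ ha hX hR hs hRs hφ (ctr s k) ζ]
      unfold cp
      have hCB' : (CB : ℂ) ≠ 0 := by exact_mod_cast hCB0.ne'
      rw [hφd]
      simp only []
      rw [← hG]
      push_cast
      field_simp
    have h2 : ∀ z, ‖TP β (ctr s k) s G z‖ₑ ^ 2 =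
        ENNReal.ofReal (CB ^ 2) * ‖TP φ (ctr s k) s (Gk k) z‖ₑ ^ 2 := by
      intro z
      rw [h1, enorm_mul, mul_pow]
      congr 1
      rw [← ofReal_norm, Complex.norm_real, Real.norm_of_nonneg hCB0.le,
        ENNReal.ofReal_pow hCB0.le]
    simp_rw [h2]
    rw [lintegral_const_mul' _ _ ENNReal.ofReal_ne_top]
    refine mul_le_mul' le_rfl ?_
    refine hK φ hφ (ctr s k) s (Gk k) _ hs hTC ?_
    intro ζ hζ
    obtain ⟨h3, h4, -, -⟩ := hRg ζ hζ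
    constructor <;> linarith
  -- one shift
  have hshift : ∀ u : ℝ × E n, ENNReal.ofReal (((1 + ‖u‖) ^ (n + 3 + M))⁻¹) * S u ≤
      ENNReal.ofReal (((1 + ‖u‖) ^ (n + 3))⁻¹) * ENNReal.ofReal ((2 * Cm + B1) * T0) := by
    intro u
    have hu0 : 0 ≤ ‖u‖ := norm_nonneg u
    rcases le_total ‖u‖ (c0 * R ^ d) with hu | hu
    · have h1 := hmain R ρ A f z₁ p u hR hρ hρR hf (by
        rw [abs_le]
        constructor <;> linarith) hu hctr' hcard'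
      have h2 : Cm * A ^ 2 * (ρ * R ^ d * (R ^ (2 * d) * R * s) ^ (n + 1) + 1) ≤
          (2 * Cm + B1) * T0 := by
        have h3 := bc_num (n := n) (d := d) (δ := δ) hR hρ hc hd2
        rw [← hsd, ← hY] at h3
        have h4 : R ^ (2 * δ) = (R ^ δ) ^ 2 := by
          rw [← Real.rpow_natCast, ← Real.rpow_mul hR0.le]
          congr 1
          push_cast
          ring
        rw [h4] at h3
        calc Cm * A ^ 2 * (ρ * R ^ d * (R ^ (2 * d) * R * s) ^ (n + 1) + 1)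
            ≤ Cm * A ^ 2 * ((R ^ δ) ^ 2 * Y + 1) := by gcongr
          _ = Cm * (T0 + A ^ 2) := by
              rw [hT0]
              ring
          _ ≤ Cm * (T0 + T0) := by gcongr
          _ ≤ _ := by
              have : 0 ≤ B1 * T0 := by positivity
              linarith
      have h3 : ENNReal.ofReal (((1 + ‖u‖) ^ (n + 3 + M))⁻¹) ≤
          ENNReal.ofReal (((1 + ‖u‖) ^ (n + 3))⁻¹) := by
        apply ENNReal.ofReal_le_ofReal
        apply inv_anti₀ (by positivity)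
        exact pow_le_pow_right₀ (by linarith) (by omega)
      exact mul_le_mul' h3 (h1.trans (ENNReal.ofReal_le_ofReal h2))
    · have h1 : S u ≤ ENNReal.ofReal (CP * R ^ n * ((Cc * A * R ^ (2 * n + 2)) ^ 2 *
          (cz * ρ ^ (n + 2)))) := by
        refine bc_large hρ0.le hcz (by positivity) hzv R z₁ p
          (fun k z => TF (Gk k) (z - sh (ctr s k) s u)) hcard' ?_
        intro k hk z
        exact hcrude R ρ A (ctr s k) f _ hR hρ hρR (hctr' k hk) hf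
      have h2 := bc_far (n := n) (M := M) (d := d) (A := A) hR hρ hρR hc0 hCc0 hA.le hcz hCP.le
        hM' hu
      calc ENNReal.ofReal (((1 + ‖u‖) ^ (n + 3 + M))⁻¹) * S u
          ≤ ENNReal.ofReal (((1 + ‖u‖) ^ (n + 3 + M))⁻¹) *
            ENNReal.ofReal (CP * R ^ n * ((Cc * A * R ^ (2 * n + 2)) ^ 2 *
              (cz * ρ ^ (n + 2)))) := by gcongr
        _ = ENNReal.ofReal (((1 + ‖u‖) ^ (n + 3 + M))⁻¹ *
            (CP * R ^ n * ((Cc * A * R ^ (2 * n + 2)) ^ 2 * (cz * ρ ^ (n + 2))))) := by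
            rw [← ENNReal.ofReal_mul (by positivity)]
        _ ≤ ENNReal.ofReal (((1 + ‖u‖) ^ (n + 3))⁻¹ * ((2 * Cm + B1) * T0)) := by
            apply ENNReal.ofReal_le_ofReal
            refine h2.trans ?_
            rw [← hB1]
            have h3 : B1 * A ^ 2 ≤ (2 * Cm + B1) * T0 := by
              calc B1 * A ^ 2 ≤ B1 * T0 := by gcongr
                _ ≤ _ := by
                  have : 0 ≤ Cm * T0 := by positivity
                  linarith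
            exact mul_le_mul_of_nonneg_left h3 (by positivity)
        _ = _ := by rw [ENNReal.ofReal_mul (by positivity)]
  calc ∑ k ∈ Ks n s, ∫⁻ z in Om R ρ (ctr s k) z₁ p, ‖TP β (ctr s k) s G z‖ₑ ^ 2
      ≤ ∑ k ∈ Ks n s, ENNReal.ofReal (CB ^ 2) * (K * ∫⁻ u : ℝ × E n,
        ENNReal.ofReal (((1 + ‖u‖) ^ (n + 3 + M))⁻¹) * ∫⁻ z in Om R ρ (ctr s k) z₁ p,
          ‖TF (Gk k) (z - sh (ctr s k) s u)‖ₑ ^ 2) := Finset.sum_le_sum hcap
    _ = ENNReal.ofReal (CB ^ 2) * (K * ∑ k ∈ Ks n s, ∫⁻ u : ℝ × E n,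
        ENNReal.ofReal (((1 + ‖u‖) ^ (n + 3 + M))⁻¹) * ∫⁻ z in Om R ρ (ctr s k) z₁ p,
          ‖TF (Gk k) (z - sh (ctr s k) s u)‖ₑ ^ 2) := by
        rw [← Finset.mul_sum, ← Finset.mul_sum]
    _ ≤ ENNReal.ofReal (CB ^ 2) * (K * ∫⁻ u : ℝ × E n,
        ENNReal.ofReal (((1 + ‖u‖) ^ (n + 3 + M))⁻¹) * S u) := by
        gcongr
        refine (bc_sum _ _ _).trans (le_of_eq ?_)
        refine lintegral_congr fun u => ?_
        rw [hS]
        simp only []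
        rw [← Finset.mul_sum]
    _ ≤ ENNReal.ofReal (CB ^ 2) * (K * ∫⁻ u : ℝ × E n,
        ENNReal.ofReal (((1 + ‖u‖) ^ (n + 3))⁻¹) * ENNReal.ofReal ((2 * Cm + B1) * T0)) := by
        exact mul_le_mul' le_rfl (mul_le_mul' le_rfl (lintegral_mono fun u => hshift u))
    _ ≤ ENNReal.ofReal (CB ^ 2) * (K * (CW * ENNReal.ofReal ((2 * Cm + B1) * T0))) := by
        rw [lintegral_mul_const' _ _ ENNReal.ofReal_ne_top]
        gcongr
    _ = ENNReal.ofReal (C5 * T0) := by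
        have e1 : (K : ℝ≥0∞) = ENNReal.ofReal (K : ℝ) := by rw [ENNReal.ofReal_coe_nnreal]
        have e2 : (CW : ℝ≥0∞) = ENNReal.ofReal (CW : ℝ) := by rw [ENNReal.ofReal_coe_nnreal]
        rw [e1, e2, ← ENNReal.ofReal_mul (by positivity), ← ENNReal.ofReal_mul (by positivity),
          ← ENNReal.ofReal_mul (by positivity)]
        congr 1
        rw [hC5]
        ring
    _ ≤ _ := by
        apply ENNReal.ofReal_le_ofReal
        rw [← hT0]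
        have h1 : C5 ≤ (1 + C₂ * C₁ + C5) ^ 2 := by
          have h2 : 0 ≤ C₂ * C₁ := by positivity
          nlinarith
        gcongr

end Pool.Agent.H40.HD
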