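import Pool.Agent.H82.HD.TW
import Pool.Agent.H81.GT.CLS
import Pool.Agent.H81.GT.SHP
import Pool.Agent.H18.G.WM
import Pool.Agent.H19.LS.PLE

/-!
MP_ee74d2_an, theorem HD: lemmas for the condition of back projection of the wave.
-/

set_option autoImplicit false

namespace Pool.Agent.H40.HD

open MeasureTheory Set FourierTransform
open scoped ENNReal NNReal RealInnerProductSpace
open Pool.Agent.H82.HD
open Pool.Agent.H83.LS (EE BCd pr jo T_PLE e)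
open Pool.Agent.H81.GT (SymE Ua ac IsX Gf zt xz tz Ua_split Ua_zcont Ua_conv Kt Kt_bdd Kt_fint
  sym_int' xz_cont tz_cont)
open Pool.Agent.H83.G (E Z Ks ctr sR IsPU TF TP TC Bp cp wt Cls)
open Pool.Agent.H18.G.WM (sh continuous_sh)

/-- sums of integrals -/
theorem bc_sum {α ι : Type*} [MeasurableSpace α] (μ : Measure α) (S : Finset ι)
    (F : ι → α → ℝ≥0∞) : ∑ k ∈ S, ∫⁻ x, F k x ∂μ ≤ ∫⁻ x, ∑ k ∈ S, F k x ∂μ := by
  classical
  induction S using Finset.induction_on with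
  | empty => simp
  | insert k S hk ih =>
    simp_rw [Finset.sum_insert hk]
    exact (add_le_add le_rfl ih).trans (le_lintegral_add _ _)

/-- the point of `ℝ × ℝ^n` of a point of space -/
noncomputable def PP {n : ℕ} (y : EE (n + 1)) : ℝ × E n := ((y (Fin.last n)) / 2, pr y)

theorem PP_cont {n : ℕ} : Continuous (PP : EE (n + 1) → ℝ × E n) := by
  unfold PP
  exact Continuous.prodMk (by fun_prop) Pool.Agent.H54.LS.continuous_pr

theorem PP_meas {n : ℕ} (p : ℝ × E n) (r : ℝ) :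
    MeasurableSet {y : EE (n + 1) | ‖PP y - p‖ ≤ r} :=
  (isClosed_le (PP_cont.sub continuous_const).norm continuous_const).measurableSet

theorem PP_vol (n : ℕ) : ∃ c : ℝ, 0 ≤ c ∧ ∀ (p : ℝ × E n) (r : ℝ), 0 ≤ r →
    volume {y : EE (n + 1) | ‖PP y - p‖ ≤ r} ≤ ENNReal.ofReal (c * r ^ (n + 1)) := by
  set v : ℝ≥0∞ := volume (Metric.ball (0 : EE (n + 1)) 1) with hv
  have hvt : v ≠ ⊤ := Metric.isBounded_ball.measure_lt_top.ne
  refine ⟨3 ^ (n + 1) * v.toReal, by positivity, fun p r hr => ?_⟩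
  have h1 : {y : EE (n + 1) | ‖PP y - p‖ ≤ r} ⊆ Metric.closedBall (jo p.2 (2 * p.1)) (3 * r) := by
    intro y hy
    have hy' : ‖PP y - p‖ ≤ r := hy
    have h2 : |y (Fin.last n) / 2 - p.1| ≤ r := (norm_fst_le (PP y - p)).trans hy'
    have h3 : ‖pr y - p.2‖ ≤ r := (norm_snd_le (PP y - p)).trans hy'
    rw [Metric.mem_closedBall, dist_eq_norm]
    have e1 : y - jo p.2 (2 * p.1) = jo (pr y - p.2) (y (Fin.last n) - 2 * p.1) := by
      rw [← Pool.Agent.H54.LS.jo_pr (y - jo p.2 (2 * p.1))]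
      congr 1
      · ext i
        show (y - jo p.2 (2 * p.1)) i.castSucc = y i.castSucc - p.2 i
        rw [PiLp.sub_apply, Pool.Agent.H54.LS.jo_castSucc]
      · rw [PiLp.sub_apply, Pool.Agent.H54.LS.jo_last]
    have h4 : ‖y - jo p.2 (2 * p.1)‖ ^ 2 = ‖pr y - p.2‖ ^ 2 + (y (Fin.last n) - 2 * p.1) ^ 2 := by
      rw [e1, Pool.Agent.H54.LS.jo_norm_sq]
    have h5 := abs_le.1 h2
    have h6 : ‖y - jo p.2 (2 * p.1)‖ ^ 2 ≤ (3 * r) ^ 2 := by
      rw [h4]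
      have h7 : ‖pr y - p.2‖ ^ 2 ≤ r ^ 2 := by gcongr
      have h8 : (y (Fin.last n) - 2 * p.1) ^ 2 ≤ (2 * r) ^ 2 := by
        apply sq_le_sq'
        · linarith [h5.1]
        · linarith [h5.2]
      nlinarith [sq_nonneg r]
    exact le_of_sq_le_sq h6 (by positivity)
  refine (measure_mono h1).trans (le_of_eq ?_)
  rw [Measure.addHaar_closedBall _ _ (by positivity), finrank_euclideanSpace, Fintype.card_fin,
    ← hv]
  have e2 : ENNReal.ofReal (3 ^ (n + 1) * v.toReal * r ^ (n + 1)) =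
      ENNReal.ofReal ((3 * r) ^ (n + 1)) * ENNReal.ofReal v.toReal := by
    rw [← ENNReal.ofReal_mul (by positivity)]
    congr 1
    rw [mul_pow]
    ring
  rw [e2, ENNReal.ofReal_toReal hvt]

theorem Z_vol (n : ℕ) : ∃ c : ℝ, 0 ≤ c ∧ ∀ (z₁ : Z n) (r : ℝ), 0 ≤ r →
    volume {z : Z n | ‖z - z₁‖ ≤ r} ≤ ENNReal.ofReal (c * r ^ (n + 2)) := by
  set v : ℝ≥0∞ := volume (Metric.ball (0 : Z n) 1) with hv
  have hvt : v ≠ ⊤ := Metric.isBounded_ball.measure_lt_top.ne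
  refine ⟨v.toReal, by positivity, fun z₁ r hr => ?_⟩
  have h1 : {z : Z n | ‖z - z₁‖ ≤ r} = Metric.closedBall z₁ r := by
    ext z
    rw [Metric.mem_closedBall, dist_eq_norm]
    rfl
  have hfr : Module.finrank ℝ (Z n) = n + 2 := by
    simp only [Module.finrank_prod, Module.finrank_self, finrank_euclideanSpace,
      Fintype.card_fin]
    ring
  rw [h1, Measure.addHaar_closedBall _ _ hr, hfr, ← hv, mul_comm,
    ENNReal.ofReal_mul (by positivity), ENNReal.ofReal_toReal hvt]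

/-- the shift -/
theorem sh_norm {n : ℕ} {η : E n} {D r s : ℝ} (hη : ‖η‖ ≤ D) (hr : 1 ≤ r) (hs : s⁻¹ = r)
    (u : ℝ × E n) : ‖sh η s u‖ ≤ (1 + D) * r * ‖u‖ := by
  have hD : 0 ≤ D := (norm_nonneg _).trans hη
  have hr0 : 0 < r := by linarith
  have hu : 0 ≤ ‖u‖ := norm_nonneg u
  have h1 : |u.1| ≤ ‖u‖ := norm_fst_le u
  have h2 : ‖u.2‖ ≤ ‖u‖ := norm_snd_le u
  have h3 : |⟪u.2, η⟫| ≤ ‖u‖ * D := (abs_real_inner_le_norm _ _).trans (by gcongr)
  unfold sh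
  rw [hs]
  refine max_le ?_ (max_le ?_ ?_)
  · show |u.1 - r * ⟪u.2, η⟫| ≤ _
    calc |u.1 - r * ⟪u.2, η⟫| ≤ |u.1| + |r * ⟪u.2, η⟫| := abs_sub _ _
      _ ≤ ‖u‖ + r * (‖u‖ * D) := by
          rw [abs_mul, abs_of_pos hr0]
          gcongr
      _ ≤ _ := by nlinarith [mul_nonneg hu hD]
  · show ‖r • u.2‖ ≤ _
    rw [norm_smul, Real.norm_of_nonneg hr0.le]
    calc r * ‖u.2‖ ≤ r * ‖u‖ := by gcongr
      _ ≤ _ := by nlinarith [mul_nonneg (mul_nonneg hD hr0.le) hu]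
  · show ‖(0 : ℝ)‖ ≤ _
    rw [norm_zero]
    positivity

/-- the kernel of the cap -/
theorem bc_ker (hKER : Pool.Agent.H83.G.T_KER) (hWT2 : Pool.Agent.H83.G.T_WT2)
    (hSCH : Pool.Agent.H83.G.T_SCH) (m L : ℕ) (hL : m + 3 ≤ L) :
    ∃ K : ℝ≥0, ∀ φ ∈ Bp m L, ∀ (η : E m) (s : ℝ) (G : Z m → ℂ) (Ω : Set (Z m)), 0 < s →
    TC G → (∀ ζ, G ζ ≠ 0 → 1 / 4 ≤ ζ.1 ∧ ζ.1 ≤ 8) →
    ∫⁻ z in Ω, ‖TP φ η s G z‖ₑ ^ 2 ≤
      K * ∫⁻ u : ℝ × E m, ENNReal.ofReal (((1 + ‖u‖) ^ L)⁻¹) *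
        ∫⁻ z in Ω, ‖TF G (z - sh η s u)‖ₑ ^ 2 := by
  obtain ⟨C0, hC0⟩ := hKER m L
  obtain ⟨C2, -, -, hC2⟩ := hWT2 m L hL
  refine ⟨C0 ^ 2 * C2, ?_⟩
  intro φ hφ η s G Ω hs hG hGs
  have hc := (hSCH m G hG).1
  set w : ℝ × E m → ℝ≥0∞ := fun u => ENNReal.ofReal (((1 + ‖u‖) ^ L)⁻¹) with hw
  have hwm : Measurable w := by
    rw [hw]
    fun_prop
  have hsh := continuous_sh η s
  have step1 : ∀ z, ‖TP φ η s G z‖ₑ ^ 2 ≤
      (C0 : ℝ≥0∞) ^ 2 * C2 * ∫⁻ u, w u * ‖TF G (z - sh η s u)‖ₑ ^ 2 := by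
    intro z
    have h3 := hC0 φ hφ η s G hs hG hGs z
    have h4 := pow_le_pow_left' h3 2
    rw [mul_pow] at h4
    refine h4.trans ?_
    rw [mul_assoc]
    refine mul_le_mul' le_rfl ?_
    have hm : Measurable fun u : ℝ × E m => ‖TF G (z - sh η s u)‖ₑ :=
      (hc.comp (continuous_const.sub hsh)).measurable.enorm
    exact (Pool.Agent.H18.G.WM.cs volume hwm hm).trans (mul_le_mul' hC2 le_rfl)
  have hmz : Measurable (Function.uncurry fun (z : Z m) (u : ℝ × E m) =>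
      w u * ‖TF G (z - sh η s u)‖ₑ ^ 2) := by
    have h5 : Continuous fun q : Z m × (ℝ × E m) => TF G (q.1 - sh η s q.2) :=
      hc.comp (continuous_fst.sub (hsh.comp continuous_snd))
    exact (hwm.comp measurable_snd).mul (h5.measurable.enorm.pow_const 2)
  calc ∫⁻ z in Ω, ‖TP φ η s G z‖ₑ ^ 2
      ≤ ∫⁻ z in Ω, (C0 : ℝ≥0∞) ^ 2 * C2 * ∫⁻ u, w u * ‖TF G (z - sh η s u)‖ₑ ^ 2 :=
        lintegral_mono fun z => step1 z
    _ = (C0 : ℝ≥0∞) ^ 2 * C2 * ∫⁻ z in Ω, ∫⁻ u, w u * ‖TF G (z - sh η s u)‖ₑ ^ 2 :=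
        lintegral_const_mul' _ _ (by finiteness)
    _ = (C0 : ℝ≥0∞) ^ 2 * C2 * ∫⁻ u, ∫⁻ z in Ω, w u * ‖TF G (z - sh η s u)‖ₑ ^ 2 := by
        rw [lintegral_lintegral_swap hmz.aemeasurable]
    _ = _ := by
        push_cast
        congr 1
        refine lintegral_congr fun u => ?_
        rw [lintegral_const_mul' _ _ ENNReal.ofReal_ne_top]

/-- the integral over a set, as a norm bound -/
theorem bc_near {n : ℕ} {κ : ℝ} {b : EE (n + 1) → ℂ} (hb : SymE n κ b) {I A c : ℝ}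
    (hI : ∫ ξ : EE (n + 1), ‖b ξ‖ ≤ I) {f : EE (n + 1) → ℂ} (hf : BCd A f)
    {S : Set (EE (n + 1))} (hS : MeasurableSet S) (hc : 0 ≤ c)
    (hv : volume S ≤ ENNReal.ofReal c) (t : ℝ) (x : EE (n + 1)) :
    ‖Ua b t (S.indicator f) x‖ ≤ I * A * c := by
  have hA : 0 ≤ A := (norm_nonneg _).trans (hf.2.1 0)
  have hI0 : 0 ≤ I := le_trans (integral_nonneg fun _ => norm_nonneg _) hI
  obtain ⟨hf1, -, -⟩ := Ua_split Pool.Agent.H19.LS.PLE_proof hb t hf hS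
  rw [Ua_conv hb Pool.Agent.H19.LS.PLE_proof t hf1]
  have hK : ∀ y, ‖Kt b t (x - y)‖ ≤ I := by
    intro y
    refine (Kt_bdd t _).trans (le_trans (le_of_eq ?_) hI)
    congr 1
    funext ξ
    rw [norm_mul, Pool.Agent.H83.LS.norm_e, one_mul]
  have h1 : ‖∫ y, Kt b t (x - y) * S.indicator f y‖ₑ ≤ ENNReal.ofReal (I * A * c) := by
    refine (enorm_integral_le_lintegral_enorm _).trans ?_
    calc ∫⁻ y, ‖Kt b t (x - y) * S.indicator f y‖ₑ
        ≤ ∫⁻ y, S.indicator (fun _ => ENNReal.ofReal (I * A)) y := by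
          refine lintegral_mono fun y => ?_
          by_cases hy : y ∈ S
          · rw [indicator_of_mem hy, indicator_of_mem hy, ← ofReal_norm]
            apply ENNReal.ofReal_le_ofReal
            rw [norm_mul]
            exact mul_le_mul (hK y) (hf.2.1 y) (norm_nonneg _) hI0
          · rw [indicator_of_notMem hy, mul_zero, enorm_zero]
            exact bot_le
      _ = ENNReal.ofReal (I * A) * volume S := by
          rw [lintegral_indicator hS, setLIntegral_const]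
      _ ≤ ENNReal.ofReal (I * A) * ENNReal.ofReal c := by gcongr
      _ = _ := by rw [← ENNReal.ofReal_mul (by positivity)]
  rw [← ofReal_norm] at h1
  exact (ENNReal.ofReal_le_ofReal_iff (by positivity)).1 h1

/-- the crude bound -/
theorem bc_crude (hBCF : T_BCF) (hREP : Pool.Agent.H81.GT.T_REP)
    (hACS : Pool.Agent.H81.GT.T_ACS) (hCOV : Pool.Agent.H81.GT.T_COV) {n : ℕ} {κ D : ℝ}
    {a : EE (n + 1) → ℂ} {X χ : ℝ → ℂ} (hn : 1 ≤ n) (hκ : κ ≤ 1 / 8) (ha : SymE n κ a)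
    (hX : IsX X χ) (hD : 0 ≤ D) : ∃ C : ℝ, 1 ≤ C ∧ ∀ (R ρ A : ℝ) (η : E n)
    (f : EE (n + 1) → ℂ) (z : Z n), 1 ≤ R → 1 ≤ ρ → ρ ≤ R → ‖η‖ ≤ D → BCd A f →
    ‖TF (Gf X R (ac a η (sR ρ)) f) z‖ ≤ C * A * R ^ (2 * n + 2) := by
  obtain ⟨CB, hCB, hB⟩ := hBCF n 0 κ D 1 a hn hκ ha hD one_pos
  obtain ⟨cv, hcv, hv⟩ := PP_vol n
  obtain ⟨Cx, hCx, hχ⟩ := hX.2.2.2.2.2 (2 * n + 2)
  set I : ℝ := ∫ ξ : EE (n + 1), ‖a ξ‖ with hI
  have hI0 : 0 ≤ I := integral_nonneg fun _ => norm_nonneg _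
  have hai : Integrable a := ha.1.continuous.integrable_of_hasCompactSupport ha.cs
  have hCB0 : 0 ≤ CB := by linarith
  refine ⟨1 + (I * (cv * CB ^ (n + 1)) + CB) * Cx, by
    have : 0 ≤ (I * (cv * CB ^ (n + 1)) + CB) * Cx := by positivity
    linarith, ?_⟩
  intro R ρ A η f z hR hρ hρR hη hf
  have hA : 0 ≤ A := (norm_nonneg _).trans (hf.2.1 0)
  have hR0 : 0 < R := by linarith
  have hs1 : sR ρ ≤ 1 := by
    unfold sR
    apply inv_le_one_of_one_le₀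
    rw [Real.one_le_sqrt]
    exact hρ
  have hs : 0 < sR ρ := by
    unfold sR
    have : 0 < Real.sqrt ρ := Real.sqrt_pos.2 (by linarith)
    positivity
  obtain ⟨hb, hb1, -⟩ := hACS n κ (sR ρ) η a hκ ha hs
  obtain ⟨-, -, hrep⟩ := hREP n κ R A (ac a η (sR ρ)) f X χ hκ hb hX hR hf
  rw [hrep z, norm_mul]
  set t : ℝ := tz z with ht
  set x : EE (n + 1) := xz z with hx
  have hzt : zt x t = z := (hCOV n).2.1 z
  set R' : ℝ := max R |t| with hR'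
  have hR'1 : 1 ≤ R' := hR.trans (le_max_left _ _)
  have hR'0 : 0 < R' := by linarith
  set r : ℝ := CB * R' ^ (1 : ℝ) * R' * sR ρ with hr
  have hr0 : 0 ≤ r := by positivity
  have hr1 : r ≤ CB * R' ^ 2 := by
    rw [hr, Real.rpow_one]
    have : CB * R' * R' * sR ρ ≤ CB * R' * R' * 1 := by gcongr
    linarith [show CB * R' * R' * 1 = CB * R' ^ 2 by ring]
  set S : Set (EE (n + 1)) := {y : EE (n + 1) | ‖PP y - bp η z‖ ≤ r} with hS
  have hSm : MeasurableSet S := PP_meas _ _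
  have hb2 : ∫ ξ : EE (n + 1), ‖ac a η (sR ρ) ξ‖ ≤ I :=
    integral_mono_of_nonneg (Filter.Eventually.of_forall fun _ => norm_nonneg _) hai.norm
      (Filter.Eventually.of_forall hb1)
  obtain ⟨-, hf2, hsplit⟩ := Ua_split Pool.Agent.H19.LS.PLE_proof hb t hf hSm
  have h1 : ‖Ua (ac a η (sR ρ)) t (S.indicator f) x‖ ≤ I * A * (cv * CB ^ (n + 1) *
      R' ^ (2 * n + 2)) := by
    refine bc_near hb hb2 hf hSm (by positivity) ?_ t x
    refine (hv (bp η z) r hr0).trans (ENNReal.ofReal_le_ofReal ?_)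
    calc cv * r ^ (n + 1) ≤ cv * (CB * R' ^ 2) ^ (n + 1) := by gcongr
      _ = _ := by rw [mul_pow, ← pow_mul, show 2 * (n + 1) = 2 * n + 2 by ring]; ring
  have h2 : ‖Ua (ac a η (sR ρ)) t (Sᶜ.indicator f) x‖ ≤ CB * A := by
    have h3 := hB R' ρ A t η x (Sᶜ.indicator f) hR'1 hρ (hρR.trans (le_max_left _ _))
      (by
        have : |t| ≤ R' := le_max_right _ _
        linarith) hη hf2 (by
        intro y hy
        have hyS : y ∈ Sᶜ := by
          by_contra h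
          exact hy (indicator_of_notMem h _)
        have h4 : ¬ ‖PP y - bp η z‖ ≤ r := hyS
        rw [hzt]
        exact (not_le.1 h4).le)
    simpa using h3
  have h3 : ‖Ua (ac a η (sR ρ)) t f x‖ ≤ (I * (cv * CB ^ (n + 1)) + CB) * A *
      R' ^ (2 * n + 2) := by
    rw [hsplit x]
    refine (norm_add_le _ _).trans ((add_le_add h1 h2).trans ?_)
    have h4 : 1 ≤ R' ^ (2 * n + 2) := one_le_pow₀ hR'1
    have h5 : CB * A ≤ CB * A * R' ^ (2 * n + 2) := le_mul_of_one_le_right (by positivity) h4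
    calc I * A * (cv * CB ^ (n + 1) * R' ^ (2 * n + 2)) + CB * A
        ≤ I * A * (cv * CB ^ (n + 1) * R' ^ (2 * n + 2)) + CB * A * R' ^ (2 * n + 2) := by
          gcongr
      _ = _ := by ring
  have h4 : R' ≤ R * (1 + |t / R|) := by
    rw [abs_div, abs_of_pos hR0, mul_add, mul_div_cancel₀ _ hR0.ne']
    apply max_le
    · linarith [abs_nonneg t]
    · linarith
  set l : ℝ := 1 + |t / R| with hl
  have hl0 : 0 < l := by positivity
  calc ‖Ua (ac a η (sR ρ)) t f x‖ * ‖χ (t / R)‖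
      ≤ ((I * (cv * CB ^ (n + 1)) + CB) * A * R' ^ (2 * n + 2)) *
        (Cx * (l ^ (2 * n + 2))⁻¹) := by
        gcongr
        exact hχ _
    _ ≤ ((I * (cv * CB ^ (n + 1)) + CB) * A * (R * l) ^ (2 * n + 2)) *
        (Cx * (l ^ (2 * n + 2))⁻¹) := by gcongr
    _ = (I * (cv * CB ^ (n + 1)) + CB) * Cx * A * R ^ (2 * n + 2) := by
        rw [mul_pow]
        field_simp
    _ ≤ _ := by
        gcongr
        linarith

theorem bp_cont {n : ℕ} (η : E n) : Continuous (bp η : Z n → ℝ × E n) := by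
  unfold bp tm
  fun_prop

theorem Om_meas {n : ℕ} (T ρ : ℝ) (η : E n) (z₁ : Z n) (p : ℝ × E n) :
    MeasurableSet (Om T ρ η z₁ p) := by
  have h1 : IsClosed {z : Z n | ‖z - z₁‖ ≤ ρ} := isClosed_le (by fun_prop) continuous_const
  have h2 : IsClosed {z : Z n | ‖bp η z - p‖ ≤ T * sR ρ} :=
    isClosed_le (((bp_cont η).sub continuous_const).norm) continuous_const
  exact (h1.inter h2).measurableSet

theorem sR_facts {ρ R : ℝ} (hρ : 1 ≤ ρ) (hρR : ρ ≤ R) : 0 < sR ρ ∧ sR ρ ≤ 1 ∧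
    (sR ρ)⁻¹ = Real.sqrt ρ ∧ 1 ≤ Real.sqrt ρ ∧ Real.sqrt ρ ≤ R * sR ρ ∧
    Real.sqrt ρ ≤ Real.sqrt R ∧ Real.sqrt ρ ≤ ρ := by
  have h1 : 1 ≤ Real.sqrt ρ := by
    rw [Real.one_le_sqrt]
    exact hρ
  have h0 : 0 < Real.sqrt ρ := by linarith
  have h2 : Real.sqrt ρ * Real.sqrt ρ = ρ := Real.mul_self_sqrt (by linarith)
  unfold sR
  refine ⟨by positivity, inv_le_one_of_one_le₀ h1, inv_inv _, h1, ?_, Real.sqrt_le_sqrt hρR, ?_⟩
  · rw [← div_eq_mul_inv, le_div_iff₀ h0]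
    linarith
  · nlinarith

/-- the main part, one point -/
theorem bc_point {Cx e0 : ℝ} {U U1 U2 x : ℂ} (hU : U = U1 + U2) (hx : ‖x‖ ≤ Cx)
    (hU2 : ‖U2‖ ≤ e0) (hCx : 0 < Cx) : ‖U * x‖ₑ ^ 2 ≤
    ENNReal.ofReal (2 * Cx ^ 2) * (‖U1‖ₑ ^ 2 + ENNReal.ofReal (e0 ^ 2)) := by
  have h1 : ‖U * x‖ ^ 2 ≤ 2 * Cx ^ 2 * (‖U1‖ ^ 2 + e0 ^ 2) := by
    have h2 : ‖U * x‖ ≤ (‖U1‖ + e0) * Cx := by
      rw [norm_mul, hU]
      have h5 := norm_add_le U1 U2
      have h6 : 0 ≤ e0 := (norm_nonneg _).trans hU2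
      exact mul_le_mul (h5.trans (by linarith)) hx (norm_nonneg _) (by positivity)
    have h3 : ‖U * x‖ ^ 2 ≤ ((‖U1‖ + e0) * Cx) ^ 2 := by gcongr
    have h4 : 0 ≤ Cx ^ 2 * (‖U1‖ - e0) ^ 2 := by positivity
    nlinarith
  rw [← ofReal_norm, ← ENNReal.ofReal_pow (norm_nonneg _), ← ofReal_norm,
    ← ENNReal.ofReal_pow (norm_nonneg _), ← ENNReal.ofReal_add (by positivity) (by positivity),
    ← ENNReal.ofReal_mul (by positivity)]
  exact ENNReal.ofReal_le_ofReal h1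

/-- integral of a truncated function -/
theorem bc_f1 {n : ℕ} {A c : ℝ} {f : EE (n + 1) → ℂ} (hf : BCd A f) {S : Set (EE (n + 1))}
    (hS : MeasurableSet S) (hv : volume S ≤ ENNReal.ofReal c) (hA : 0 ≤ A) :
    ∫⁻ x, ‖S.indicator f x‖ₑ ^ 2 ≤ ENNReal.ofReal (A ^ 2 * c) := by
  calc ∫⁻ x, ‖S.indicator f x‖ₑ ^ 2 ≤ ∫⁻ x, S.indicator (fun _ => ENNReal.ofReal (A ^ 2)) x := by
        refine lintegral_mono fun x => ?_
        by_cases hx : x ∈ S
        · rw [indicator_of_mem hx, indicator_of_mem hx, ← ofReal_norm,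
            ← ENNReal.ofReal_pow (norm_nonneg _)]
          apply ENNReal.ofReal_le_ofReal
          have := hf.2.1 x
          gcongr
        · rw [indicator_of_notMem hx, indicator_of_notMem hx]
          simp
    _ = ENNReal.ofReal (A ^ 2) * volume S := by rw [lintegral_indicator hS, setLIntegral_const]
    _ ≤ ENNReal.ofReal (A ^ 2) * ENNReal.ofReal c := by gcongr
    _ = _ := by rw [← ENNReal.ofReal_mul (by positivity)]

/-- the sum over the caps of the near part -/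
theorem bc_caps (hCOV : Pool.Agent.H81.GT.T_COV) (hACS : Pool.Agent.H81.GT.T_ACS) {n : ℕ}
    {κ : ℝ} {a : EE (n + 1) → ℂ} (hκ : κ ≤ 1 / 8) (ha : SymE n κ a) {CN : ℝ≥0} {s t₁ τ A : ℝ}
    {g : EE (n + 1) → ℂ} (hg : BCd A g) (hs : 0 < s)
    (hN : ∀ t : ℝ, ∑ k ∈ Ks n s, ∫⁻ x, ‖Ua (ac a (ctr s k) s) t g x‖ₑ ^ 2 ≤
      CN * ∫⁻ x, ‖g x‖ₑ ^ 2) :
    ∑ k ∈ Ks n s, ∫⁻ z : Z n, {z : Z n | |tz z - t₁| ≤ τ}.indicator
      (fun z => ‖Ua (ac a (ctr s k) s) (tz z) g (xz z)‖ₑ ^ 2) z ≤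
      ENNReal.ofReal (2 * τ) * (CN * ∫⁻ x, ‖g x‖ₑ ^ 2) := by
  have hT : MeasurableSet {z : Z n | |tz z - t₁| ≤ τ} :=
    (isClosed_le ((tz_cont.sub continuous_const).abs) continuous_const).measurableSet
  set F : (Fin n → ℤ) → Z n → ℝ≥0∞ := fun k => {z : Z n | |tz z - t₁| ≤ τ}.indicator
      (fun z => ‖Ua (ac a (ctr s k) s) (tz z) g (xz z)‖ₑ ^ 2) with hF
  have hFm : ∀ k, Measurable (F k) := by
    intro k
    have hb := (hACS n κ s (ctr s k) a hκ ha hs).1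
    have h1 := Ua_zcont hb (Pool.Agent.H19.LS.BCd_int A _ hg)
    exact (h1.enorm.measurable.pow_const 2).indicator hT
  have h1 : ∀ k, ∫⁻ z, F k z ≤ ∫⁻ t : ℝ, ∫⁻ x : EE (n + 1), F k (zt x t) := by
    intro k
    rw [(hCOV n).2.2.1 _ (hFm k)]
    calc 2⁻¹ * ∫⁻ t : ℝ, ∫⁻ x : EE (n + 1), F k (zt x t)
        ≤ 1 * ∫⁻ t : ℝ, ∫⁻ x : EE (n + 1), F k (zt x t) := by
          gcongr
          exact ENNReal.inv_le_one.2 (by norm_num)
      _ = _ := one_mul _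
  calc ∑ k ∈ Ks n s, ∫⁻ z, F k z
      ≤ ∑ k ∈ Ks n s, ∫⁻ t : ℝ, ∫⁻ x : EE (n + 1), F k (zt x t) :=
        Finset.sum_le_sum fun k _ => h1 k
    _ ≤ ∫⁻ t : ℝ, ∑ k ∈ Ks n s, ∫⁻ x : EE (n + 1), F k (zt x t) := bc_sum _ _ _
    _ ≤ ∫⁻ t : ℝ, (Icc (t₁ - τ) (t₁ + τ)).indicator (fun _ => CN * ∫⁻ x, ‖g x‖ₑ ^ 2) t := by
        refine lintegral_mono fun t => ?_
        by_cases ht : |t - t₁| ≤ τ
        · have ht' : t ∈ Icc (t₁ - τ) (t₁ + τ) := by
            obtain ⟨h2, h3⟩ := abs_le.1 ht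
            exact ⟨by linarith, by linarith⟩
          rw [indicator_of_mem ht']
          refine le_trans (le_of_eq ?_) (hN t)
          refine Finset.sum_congr rfl fun k _ => lintegral_congr fun x => ?_
          have h4 : zt x t ∈ {z : Z n | |tz z - t₁| ≤ τ} := by
            show |tz (zt x t) - t₁| ≤ τ
            rw [((hCOV n).1 x t).2]
            exact ht
          simp only [hF]
          rw [indicator_of_mem h4, ((hCOV n).1 x t).1, ((hCOV n).1 x t).2]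
        · have ht' : t ∉ Icc (t₁ - τ) (t₁ + τ) := by
            intro h
            apply ht
            rw [abs_le]
            exact ⟨by linarith [h.1], by linarith [h.2]⟩
          rw [indicator_of_notMem ht']
          refine le_of_eq ?_
          refine Finset.sum_eq_zero fun k _ => ?_
          have h5 : ∀ x : EE (n + 1), F k (zt x t) = 0 := by
            intro x
            apply indicator_of_notMem
            intro h
            apply ht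
            have h6 : |tz (zt x t) - t₁| ≤ τ := h
            rwa [((hCOV n).1 x t).2] at h6
          simp_rw [h5]
          simp
    _ = _ := by
        rw [lintegral_indicator measurableSet_Icc, setLIntegral_const, Real.volume_Icc, mul_comm]
        congr 2
        ring

/-- the main part -/
theorem bc_main (hBCF : T_BCF) (hBCN : T_BCN) (hBPG : T_BPG)
    (hREP : Pool.Agent.H81.GT.T_REP) (hACS : Pool.Agent.H81.GT.T_ACS)
    (hCOV : Pool.Agent.H81.GT.T_COV) {n : ℕ} {κ D d cK : ℝ}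
    {a : EE (n + 1) → ℂ} {X χ : ℝ → ℂ} (hn : 1 ≤ n) (hκ : κ ≤ 1 / 8) (ha : SymE n κ a)
    (hX : IsX X χ) (hD : 0 ≤ D) (hd : 0 < d) (hd2 : d ≤ 1 / 4) (hcK : 0 ≤ cK) :
    ∃ C c0 : ℝ, 1 ≤ C ∧ 0 < c0 ∧ ∀ (R ρ A : ℝ)
    (f : EE (n + 1) → ℂ) (z₁ : Z n) (p : ℝ × E n) (u : ℝ × E n), 1 ≤ R → 1 ≤ ρ → ρ ≤ R →
    BCd A f → |tm z₁| ≤ 4 * R → ‖u‖ ≤ c0 * R ^ d →
    (∀ k ∈ Ks n (sR ρ), ‖ctr (sR ρ) k‖ ≤ D) → ((Ks n (sR ρ)).card : ℝ) ≤ cK * R ^ n →
    ∑ k ∈ Ks n (sR ρ), ∫⁻ z in Om R ρ (ctr (sR ρ) k) z₁ p,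
      ‖TF (Gf X R (ac a (ctr (sR ρ) k) (sR ρ)) f) (z - sh (ctr (sR ρ) k) (sR ρ) u)‖ₑ ^ 2 ≤
      ENNReal.ofReal (C * A ^ 2 * (ρ * R ^ d * (R ^ (2 * d) * R * sR ρ) ^ (n + 1) + 1)) := by
  obtain ⟨CB, hCB, hB⟩ := hBCF n (n + 1) κ D (2 * d) a hn hκ ha hD (by positivity)
  obtain ⟨CN, hN⟩ := hBCN n κ a hκ ha
  obtain ⟨cv, hcv, hv⟩ := PP_vol n
  obtain ⟨cz, hcz, hzv⟩ := Z_vol n
  obtain ⟨Cx, hCx, hχ'⟩ := hX.2.2.2.2.2 0
  have hχ : ∀ σ, ‖χ σ‖ ≤ Cx := by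
    intro σ
    have := hχ' σ
    simpa using this
  obtain ⟨hbp1, -, htm, -, hbpD⟩ := hBPG n
  obtain ⟨CP, hCP, hbpn, -⟩ := hbpD D hD
  have hCB0 : 0 < CB := by linarith
  have hCP0 : 0 < CP := by linarith
  set c0 : ℝ := (2 * (CP * (1 + D)))⁻¹ with hc0
  have hc0' : 0 < c0 := by positivity
  have hc01 : CP * (1 + D) * c0 = 1 / 2 := by
    rw [hc0]
    field_simp
  set C1 : ℝ := CB + 2 with hC1
  set K1 : ℝ := 2 * Cx ^ 2 * (6 * CN * cv * C1 ^ (n + 1)) with hK1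
  set K2 : ℝ := 2 * Cx ^ 2 * (CB ^ 2 * cz * cK) with hK2
  have hK10 : 0 ≤ K1 := by positivity
  have hK20 : 0 ≤ K2 := by positivity
  refine ⟨1 + K1 + K2, c0, by linarith, hc0', ?_⟩
  intro R ρ A f z₁ p u hR hρ hρR hf ht₁ hu hctr hcard
  have hA : 0 ≤ A := (norm_nonneg _).trans (hf.2.1 0)
  have hR0 : 0 < R := by linarith
  have hρ0 : 0 < ρ := by linarith
  obtain ⟨hs, hs1, hsi, hq1, hqR, hqq, hqρ⟩ := sR_facts hρ hρR
  set s : ℝ := sR ρ with hsd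
  set q : ℝ := Real.sqrt ρ with hq
  have hq0 : 0 < q := by linarith
  have hRd : 1 ≤ R ^ d := Real.one_le_rpow hR hd.le
  have hRd0 : 0 < R ^ d := by linarith
  have hRdR : q * R ^ d ≤ R := by
    have h1 : R ^ d ≤ Real.sqrt R := by
      rw [Real.sqrt_eq_rpow]
      exact Real.rpow_le_rpow_of_exponent_le hR (by linarith)
    calc q * R ^ d ≤ Real.sqrt R * Real.sqrt R := by gcongr
      _ = R := Real.mul_self_sqrt hR0.le
  set τ : ℝ := 3 * ρ * R ^ d with hτ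
  set r : ℝ := C1 * (R ^ (2 * d) * R * s) with hr
  have hr0 : 0 ≤ r := by positivity
  set S : Set (EE (n + 1)) := {y : EE (n + 1) | ‖PP y - p‖ ≤ r} with hS
  have hSm : MeasurableSet S := PP_meas _ _
  have hSv : volume S ≤ ENNReal.ofReal (cv * r ^ (n + 1)) := hv p r hr0
  set e0 : ℝ := CB * A * (R ^ (n + 1))⁻¹ with he0
  have he00 : 0 ≤ e0 := by positivity
  set F : (Fin n → ℤ) → Z n → ℝ≥0∞ := fun k => {z : Z n | |tz z - tm z₁| ≤ τ}.indicator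
      (fun z => ‖Ua (ac a (ctr s k) s) (tz z) (S.indicator f) (xz z)‖ₑ ^ 2) with hF
  have hR2d : R ^ (2 * d) = R ^ d * R ^ d := by
    rw [← Real.rpow_add hR0]
    congr 1
    ring
  -- one cap
  have hcap : ∀ k ∈ Ks n s, ∫⁻ z in Om R ρ (ctr s k) z₁ p,
      ‖TF (Gf X R (ac a (ctr s k) s) f) (z - sh (ctr s k) s u)‖ₑ ^ 2 ≤
      ENNReal.ofReal (2 * Cx ^ 2) *
        ((∫⁻ z, F k z) + ENNReal.ofReal (e0 ^ 2 * (cz * ρ ^ (n + 2)))) := by
    intro k hk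
    have hη := hctr k hk
    set η : E n := ctr s k with hηd
    set v : Z n := sh η s u with hvd
    obtain ⟨hb, hb1, -⟩ := hACS n κ s η a hκ ha hs
    obtain ⟨-, -, hrep⟩ := hREP n κ R A (ac a η s) f X χ hκ hb hX hR hf
    have hvn : ‖v‖ ≤ (1 + D) * q * ‖u‖ := sh_norm hη hq1 hsi u
    have hvn2 : CP * ‖v‖ ≤ q * R ^ d / 2 := by
      have hvn' : ‖v‖ ≤ (1 + D) * q * (c0 * R ^ d) := hvn.trans (by gcongr)
      calc CP * ‖v‖ ≤ CP * ((1 + D) * q * (c0 * R ^ d)) := by gcongr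
        _ = (CP * (1 + D) * c0) * (q * R ^ d) := by ring
        _ = _ := by rw [hc01]; ring
    have hvn3 : ‖v‖ ≤ q * R ^ d / 2 := by
      have : ‖v‖ ≤ CP * ‖v‖ := le_mul_of_one_le_left (norm_nonneg _) hCP
      linarith
    have hpt : ∀ z ∈ Om R ρ η z₁ p, ‖TF (Gf X R (ac a η s) f) (z - v)‖ₑ ^ 2 ≤
        ENNReal.ofReal (2 * Cx ^ 2) * (F k (z - v) + ENNReal.ofReal (e0 ^ 2)) := by
      intro z hz
      obtain ⟨hz1, hz2⟩ := hz
      have hz1' : ‖(z - v) - z₁‖ ≤ ρ + q * R ^ d / 2 := by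
        have e1 : (z - v) - z₁ = (z - z₁) - v := by abel
        rw [e1]
        exact (norm_sub_le _ _).trans (add_le_add hz1 hvn3)
      have hz2' : ‖bp η (z - v) - p‖ ≤ 2 * (R ^ d * (R * s)) := by
        have e1 : bp η (z - v) - p = (bp η z - p) - bp η v := by
          rw [(hbp1 η z v).2]
          abel
        have h2 : ‖bp η v‖ ≤ q * R ^ d / 2 := ((hbpn η v hη).1).trans hvn2
        have h3 : q * R ^ d ≤ R ^ d * (R * s) := by
          rw [mul_comm]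
          gcongr
        have h4 : R * s ≤ R ^ d * (R * s) := le_mul_of_one_le_left (by positivity) hRd
        rw [e1]
        have hz2'' : ‖bp η z - p‖ ≤ R * s := hz2
        have h5 : 0 ≤ q * R ^ d := by positivity
        refine (norm_sub_le _ _).trans ?_
        linarith
      have hq2 : q * R ^ d ≤ ρ * R ^ d := by gcongr
      have hρ2 : ρ ≤ ρ * R ^ d := le_mul_of_one_le_right hρ0.le hRd
      have ht2 : |tm (z - v) - tm z₁| ≤ 2 * ρ + q * R ^ d := by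
        rw [← (htm (z - v) z₁ 0).2.1]
        refine ((htm ((z - v) - z₁) 0 0).2.2.2).trans ?_
        linarith
      have ht3 : |tz (z - v) - tm z₁| ≤ τ := by
        refine ht2.trans ?_
        rw [hτ]
        linarith
      have ht4 : |tz (z - v)| ≤ 8 * R := by
        have h5 : |tm (z - v)| ≤ |tm (z - v) - tm z₁| + |tm z₁| := by
          have := abs_add_le (tm (z - v) - tm z₁) (tm z₁)
          simpa using this
        have h6 : |tz (z - v)| = |tm (z - v)| := rfl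
        rw [h6]
        linarith
      have hzt : zt (xz (z - v)) (tz (z - v)) = z - v := (hCOV n).2.1 (z - v)
      obtain ⟨-, hf2, hsplit⟩ := Ua_split Pool.Agent.H19.LS.PLE_proof hb (tz (z - v)) hf hSm
      have hU2 : ‖Ua (ac a η s) (tz (z - v)) (Sᶜ.indicator f) (xz (z - v))‖ ≤ e0 := by
        refine hB R ρ A (tz (z - v)) η (xz (z - v)) (Sᶜ.indicator f) hR hρ hρR ht4 hη hf2 ?_
        intro y hy
        have hyS : y ∈ Sᶜ := by
          by_contra h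
          exact hy (indicator_of_notMem h _)
        have h4 : ¬ ‖PP y - p‖ ≤ r := hyS
        rw [hzt]
        have h5 : ‖PP y - p‖ ≤ ‖PP y - bp η (z - v)‖ + ‖bp η (z - v) - p‖ := by
          have e1 : PP y - p = (PP y - bp η (z - v)) + (bp η (z - v) - p) := by abel
          rw [e1]
          exact norm_add_le _ _
        have h6 : R ^ d * (R * s) ≤ R ^ (2 * d) * R * s := by
          rw [hR2d]
          have : R ^ d * (R * s) ≤ R ^ d * (R ^ d * (R * s)) :=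
            le_mul_of_one_le_left (by positivity) hRd |>.trans (le_of_eq (by ring))
          linarith [show R ^ d * (R ^ d * (R * s)) = R ^ d * R ^ d * R * s by ring]
        have h7 : r = CB * R ^ (2 * d) * R * s + 2 * (R ^ (2 * d) * R * s) := by
          rw [hr, hC1]
          ring
        have h8 := not_le.1 h4
        show CB * R ^ (2 * d) * R * s ≤ ‖PP y - bp η (z - v)‖
        linarith
      rw [hrep (z - v)]
      have hF1 : F k (z - v) =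
          ‖Ua (ac a η s) (tz (z - v)) (S.indicator f) (xz (z - v))‖ₑ ^ 2 := by
        simp only [hF]
        rw [indicator_of_mem (show (z - v) ∈ {z : Z n | |tz z - tm z₁| ≤ τ} from ht3)]
      rw [hF1]
      exact bc_point (hsplit _) (hχ _) hU2 hCx
    calc ∫⁻ z in Om R ρ η z₁ p, ‖TF (Gf X R (ac a η s) f) (z - v)‖ₑ ^ 2
        ≤ ∫⁻ z in Om R ρ η z₁ p,
          ENNReal.ofReal (2 * Cx ^ 2) * (F k (z - v) + ENNReal.ofReal (e0 ^ 2)) :=
          setLIntegral_mono' (Om_meas _ _ _ _ _) hpt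
      _ = ENNReal.ofReal (2 * Cx ^ 2) * ((∫⁻ z in Om R ρ η z₁ p, F k (z - v)) +
          ENNReal.ofReal (e0 ^ 2) * volume (Om R ρ η z₁ p)) := by
          rw [lintegral_const_mul' _ _ ENNReal.ofReal_ne_top,
            lintegral_add_right _ measurable_const, setLIntegral_const]
      _ ≤ ENNReal.ofReal (2 * Cx ^ 2) * ((∫⁻ z, F k z) +
          ENNReal.ofReal (e0 ^ 2 * (cz * ρ ^ (n + 2)))) := by
          have h1 : ∫⁻ z in Om R ρ η z₁ p, F k (z - v) ≤ ∫⁻ z, F k z := by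
            refine (setLIntegral_le_lintegral _ _).trans (le_of_eq ?_)
            exact lintegral_sub_right_eq_self (F k) v
          have h2 : ENNReal.ofReal (e0 ^ 2) * volume (Om R ρ η z₁ p) ≤
              ENNReal.ofReal (e0 ^ 2 * (cz * ρ ^ (n + 2))) := by
            rw [ENNReal.ofReal_mul (by positivity)]
            gcongr
            exact (measure_mono fun z hz => hz.1).trans (hzv z₁ ρ hρ0.le)
          gcongr
  have hsum := bc_caps hCOV hACS hκ ha (CN := CN) (s := s) (t₁ := tm z₁) (τ := τ) (A := A)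
    (g := S.indicator f)
    (Ua_split Pool.Agent.H19.LS.PLE_proof ha 0 hf hSm).1 hs
    (fun t => hN A s t (S.indicator f) hs hs1
      (Ua_split Pool.Agent.H19.LS.PLE_proof ha 0 hf hSm).1)
  have hf1 := bc_f1 hf hSm hSv hA
  set W : ℝ := ρ * R ^ d * (R ^ (2 * d) * R * s) ^ (n + 1) with hW
  have hW0 : 0 ≤ W := by positivity
  calc ∑ k ∈ Ks n s, ∫⁻ z in Om R ρ (ctr s k) z₁ p,
      ‖TF (Gf X R (ac a (ctr s k) s) f) (z - sh (ctr s k) s u)‖ₑ ^ 2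
      ≤ ∑ k ∈ Ks n s, ENNReal.ofReal (2 * Cx ^ 2) * ((∫⁻ z, F k z) +
        ENNReal.ofReal (e0 ^ 2 * (cz * ρ ^ (n + 2)))) := Finset.sum_le_sum hcap
    _ = ENNReal.ofReal (2 * Cx ^ 2) * ((∑ k ∈ Ks n s, ∫⁻ z, F k z) +
        (Ks n s).card * ENNReal.ofReal (e0 ^ 2 * (cz * ρ ^ (n + 2)))) := by
        rw [← Finset.mul_sum, Finset.sum_add_distrib, Finset.sum_const, nsmul_eq_mul]
    _ ≤ ENNReal.ofReal (2 * Cx ^ 2) * (ENNReal.ofReal (2 * τ) *
        (CN * ENNReal.ofReal (A ^ 2 * (cv * r ^ (n + 1)))) +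
        ENNReal.ofReal (cK * R ^ n) * ENNReal.ofReal (e0 ^ 2 * (cz * R ^ (n + 2)))) := by
        have h1 : ((Ks n s).card : ℝ≥0∞) ≤ ENNReal.ofReal (cK * R ^ n) := by
          rw [← ENNReal.ofReal_natCast]
          exact ENNReal.ofReal_le_ofReal hcard
        have h2 : ENNReal.ofReal (e0 ^ 2 * (cz * ρ ^ (n + 2))) ≤
            ENNReal.ofReal (e0 ^ 2 * (cz * R ^ (n + 2))) := by
          apply ENNReal.ofReal_le_ofReal
          gcongr
        have h3 : ∑ k ∈ Ks n s, ∫⁻ z, F k z ≤ ENNReal.ofReal (2 * τ) *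
            (CN * ENNReal.ofReal (A ^ 2 * (cv * r ^ (n + 1)))) := by
          refine hsum.trans ?_
          gcongr
        gcongr
    _ = ENNReal.ofReal (2 * Cx ^ 2 * (2 * τ * (CN * (A ^ 2 * (cv * r ^ (n + 1)))) +
        cK * R ^ n * (e0 ^ 2 * (cz * R ^ (n + 2))))) := by
        have hCN : (CN : ℝ≥0∞) = ENNReal.ofReal (CN : ℝ) := by
          rw [ENNReal.ofReal_coe_nnreal]
        rw [hCN, ← ENNReal.ofReal_mul (by positivity), ← ENNReal.ofReal_mul (by positivity),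
          ← ENNReal.ofReal_mul (by positivity), ← ENNReal.ofReal_add (by positivity)
            (by positivity), ← ENNReal.ofReal_mul (by positivity)]
    _ ≤ _ := by
        apply ENNReal.ofReal_le_ofReal
        have e1 : 2 * Cx ^ 2 * (2 * τ * (CN * (A ^ 2 * (cv * r ^ (n + 1))))) =
            K1 * A ^ 2 * W := by
          rw [hK1, hW, hτ, hr, mul_pow]
          ring
        have e2 : 2 * Cx ^ 2 * (cK * R ^ n * (e0 ^ 2 * (cz * R ^ (n + 2)))) = K2 * A ^ 2 := by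
          rw [hK2, he0]
          have : R ^ (n + 2) = R ^ (n + 1) * R := pow_succ R (n + 1)
          have h3 : R ^ (n + 1) = R ^ n * R := pow_succ R n
          rw [this, h3]
          field_simp
        rw [mul_add, e1, e2]
        have h1 : K1 * A ^ 2 * W ≤ (1 + K1 + K2) * A ^ 2 * W := by
          gcongr
          linarith
        have h2 : K2 * A ^ 2 ≤ (1 + K1 + K2) * A ^ 2 * 1 := by
          rw [mul_one]
          gcongr
          linarith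
        rw [mul_add]
        linarith

/-- numerology -/
theorem bc_num {n : ℕ} {R ρ d δ : ℝ} (hR : 1 ≤ R) (hρ : 1 ≤ ρ) (h : R ≤ ρ ^ (3 / 2 : ℝ))
    (hd : (2 * (n : ℝ) + 3) * d ≤ 2 * δ) :
    ρ * R ^ d * (R ^ (2 * d) * R * sR ρ) ^ (n + 1) ≤
      R ^ (2 * δ) * (R ^ n * ρ ^ (3 - (n : ℝ) / 2)) := by
  have hR0 : 0 < R := by linarith
  have hρ0 : 0 < ρ := by linarith
  have e1 : sR ρ = ρ ^ (-(1 / 2) : ℝ) := by
    unfold sR
    rw [Real.sqrt_eq_rpow, Real.rpow_neg hρ0.le]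
  have e2 : (R ^ (2 * d) * R * sR ρ) ^ (n + 1) =
      R ^ (2 * d * (n + 1)) * (R ^ n * R) * ρ ^ (-((n : ℝ) + 1) / 2) := by
    rw [e1, mul_pow, mul_pow, ← Real.rpow_natCast (R ^ (2 * d)), ← Real.rpow_mul hR0.le,
      ← Real.rpow_natCast (ρ ^ (-(1 / 2) : ℝ)), ← Real.rpow_mul hρ0.le, pow_succ R n]
    congr 2
    · congr 1
      push_cast
      ring
    · push_cast
      ring
  have e3 : ρ * R ^ d * (R ^ (2 * d) * R * sR ρ) ^ (n + 1) =
      R ^ ((2 * (n : ℝ) + 3) * d) * (R ^ n * (R * (ρ * ρ ^ (-((n : ℝ) + 1) / 2)))) := by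
    rw [e2]
    have : R ^ ((2 * (n : ℝ) + 3) * d) = R ^ d * R ^ (2 * d * (n + 1)) := by
      rw [← Real.rpow_add hR0]
      congr 1
      ring
    rw [this]
    ring
  rw [e3]
  have h1 : R ^ ((2 * (n : ℝ) + 3) * d) ≤ R ^ (2 * δ) := Real.rpow_le_rpow_of_exponent_le hR hd
  have h2 : R * (ρ * ρ ^ (-((n : ℝ) + 1) / 2)) ≤ ρ ^ (3 - (n : ℝ) / 2) := by
    calc R * (ρ * ρ ^ (-((n : ℝ) + 1) / 2)) ≤
          ρ ^ (3 / 2 : ℝ) * (ρ * ρ ^ (-((n : ℝ) + 1) / 2)) := by gcongr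
      _ = ρ ^ (2 - (n : ℝ) / 2) := by
          nth_rewrite 2 [← Real.rpow_one ρ]
          rw [← Real.rpow_add hρ0, ← Real.rpow_add hρ0]
          congr 1
          ring
      _ ≤ _ := Real.rpow_le_rpow_of_exponent_le hρ (by linarith)
  gcongr

/-- the lower bound of the right side -/
theorem bc_one {n : ℕ} {R ρ : ℝ} (hR : 1 ≤ R) (hρ : 1 ≤ ρ) (hρR : ρ ≤ R) :
    1 ≤ R ^ n * ρ ^ (3 - (n : ℝ) / 2) := by
  have hR0 : 0 < R := by linarith
  have hρ0 : 0 < ρ := by linarith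
  have h1 : ρ ^ (-(n : ℝ)) ≤ ρ ^ (3 - (n : ℝ) / 2) := by
    apply Real.rpow_le_rpow_of_exponent_le hρ
    have : (0 : ℝ) ≤ n := Nat.cast_nonneg _
    linarith
  have h2 : ρ ^ (-(n : ℝ)) = (ρ ^ n)⁻¹ := by
    rw [Real.rpow_neg hρ0.le, Real.rpow_natCast]
  calc (1 : ℝ) = ρ ^ n * (ρ ^ n)⁻¹ := by field_simp
    _ ≤ R ^ n * ρ ^ (3 - (n : ℝ) / 2) := by
        rw [← h2]
        gcongr

/-- large shifts -/
theorem bc_far {n M : ℕ} {R ρ c0 d Cc A cz cK : ℝ} (hR : 1 ≤ R) (hρ : 1 ≤ ρ) (hρR : ρ ≤ R)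
    (hc0 : 0 < c0) (hCc : 0 ≤ Cc) (hA : 0 ≤ A) (hcz : 0 ≤ cz) (hcK : 0 ≤ cK)
    (hM : 6 * (n : ℝ) + 6 ≤ d * M) {x : ℝ} (hx : c0 * R ^ d ≤ x) :
    ((1 + x) ^ (n + 3 + M))⁻¹ *
      (cK * R ^ n * ((Cc * A * R ^ (2 * n + 2)) ^ 2 * (cz * ρ ^ (n + 2)))) ≤
      ((1 + x) ^ (n + 3))⁻¹ * (cK * cz * Cc ^ 2 * (c0 ^ M)⁻¹ * A ^ 2) := by
  have hR0 : 0 < R := by linarith
  have hρ0 : 0 < ρ := by linarith
  have hx0 : 0 < x := lt_of_lt_of_le (by positivity) hx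
  have h1 : c0 ^ M * R ^ (6 * n + 6) ≤ (1 + x) ^ M := by
    have h2 : (c0 * R ^ d) ^ M ≤ (1 + x) ^ M := by
      gcongr
      linarith
    refine le_trans ?_ h2
    rw [mul_pow]
    gcongr
    rw [← Real.rpow_natCast (R ^ d), ← Real.rpow_mul hR0.le, ← Real.rpow_natCast]
    apply Real.rpow_le_rpow_of_exponent_le hR
    push_cast
    exact hM
  have h3 : ((1 + x) ^ M)⁻¹ * R ^ (6 * n + 6) ≤ (c0 ^ M)⁻¹ := by
    rw [inv_mul_le_iff₀ (by positivity), ← div_eq_mul_inv, le_div_iff₀ (by positivity)]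
    linarith [mul_comm (c0 ^ M) (R ^ (6 * n + 6))]
  calc ((1 + x) ^ (n + 3 + M))⁻¹ *
      (cK * R ^ n * ((Cc * A * R ^ (2 * n + 2)) ^ 2 * (cz * ρ ^ (n + 2))))
      ≤ ((1 + x) ^ (n + 3 + M))⁻¹ *
      (cK * R ^ n * ((Cc * A * R ^ (2 * n + 2)) ^ 2 * (cz * R ^ (n + 2)))) := by gcongr
    _ = ((1 + x) ^ (n + 3))⁻¹ * (cK * cz * Cc ^ 2 * (((1 + x) ^ M)⁻¹ * R ^ (6 * n + 6)) *
        A ^ 2) := by
        have e1 : R ^ (6 * n + 6) = R ^ n * (R ^ (2 * n + 2)) ^ 2 * R ^ (n + 2) := by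
          rw [← pow_mul, ← pow_add, ← pow_add]
          congr 1
          ring
        rw [e1, pow_add (1 + x) (n + 3) M, mul_inv]
        ring
    _ ≤ _ := by gcongr

theorem TF_mul {m : ℕ} (c : ℂ) (H : Z m → ℂ) (z : Z m) :
    TF (fun ζ => c * H ζ) z = c * TF H z := by
  unfold TF
  rw [← integral_const_mul]
  refine integral_congr_ae (Filter.Eventually.of_forall fun ζ => ?_)
  simp only []
  ring

/-- the sum over the caps for a large shift -/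
theorem bc_large {n : ℕ} {ρ cz B : ℝ} {s : ℝ} (hρ : 0 ≤ ρ) (hcz : 0 ≤ cz) (hB : 0 ≤ B)
    (hzv : ∀ (z₁ : Z n) (r : ℝ), 0 ≤ r →
      volume {z : Z n | ‖z - z₁‖ ≤ r} ≤ ENNReal.ofReal (cz * r ^ (n + 2)))
    (R : ℝ) (z₁ : Z n) (p : ℝ × E n) (F : (Fin n → ℤ) → Z n → ℂ) {N : ℝ}
    (hN : ((Ks n s).card : ℝ) ≤ N) (hF : ∀ k ∈ Ks n s, ∀ z, ‖F k z‖ ≤ B) :
    ∑ k ∈ Ks n s, ∫⁻ z in Om R ρ (ctr s k) z₁ p, ‖F k z‖ₑ ^ 2 ≤
      ENNReal.ofReal (N * (B ^ 2 * (cz * ρ ^ (n + 2)))) := by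
  have h1 : ∀ k ∈ Ks n s, ∫⁻ z in Om R ρ (ctr s k) z₁ p, ‖F k z‖ₑ ^ 2 ≤
      ENNReal.ofReal (B ^ 2 * (cz * ρ ^ (n + 2))) := by
    intro k hk
    calc ∫⁻ z in Om R ρ (ctr s k) z₁ p, ‖F k z‖ₑ ^ 2
        ≤ ∫⁻ z in Om R ρ (ctr s k) z₁ p, ENNReal.ofReal (B ^ 2) := by
          refine lintegral_mono fun z => ?_
          rw [← ofReal_norm, ← ENNReal.ofReal_pow (norm_nonneg _)]
          apply ENNReal.ofReal_le_ofReal
          have := hF k hk z
          gcongr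
      _ = ENNReal.ofReal (B ^ 2) * volume (Om R ρ (ctr s k) z₁ p) := setLIntegral_const _ _
      _ ≤ ENNReal.ofReal (B ^ 2) * ENNReal.ofReal (cz * ρ ^ (n + 2)) := by
          gcongr
          exact (measure_mono fun z hz => hz.1).trans (hzv z₁ ρ hρ)
      _ = _ := by rw [← ENNReal.ofReal_mul (by positivity)]
  have hN0 : 0 ≤ N := le_trans (Nat.cast_nonneg _) hN
  calc ∑ k ∈ Ks n s, ∫⁻ z in Om R ρ (ctr s k) z₁ p, ‖F k z‖ₑ ^ 2
      ≤ ∑ _k ∈ Ks n s, ENNReal.ofReal (B ^ 2 * (cz * ρ ^ (n + 2))) := Finset.sum_le_sum h1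
    _ = ENNReal.ofReal ((Ks n s).card) * ENNReal.ofReal (B ^ 2 * (cz * ρ ^ (n + 2))) := by
        rw [Finset.sum_const, nsmul_eq_mul, ENNReal.ofReal_natCast]
    _ ≤ ENNReal.ofReal N * ENNReal.ofReal (B ^ 2 * (cz * ρ ^ (n + 2))) := by gcongr
    _ = _ := by rw [← ENNReal.ofReal_mul hN0]

end Pool.Agent.H40.HD
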