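import Pool.Agent.H82.HD.TA

/-!
MP_ee74d2_an, theorem HD: stability of the class and of the condition (row SSCp).
-/

set_option autoImplicit false

namespace Pool.Agent.H40.HD

open MeasureTheory Set
open Pool.Agent.H83.G
open Pool.Agent.H82.HD
open Pool.Agent.H22.G (co)
open scoped ENNReal NNReal RealInnerProductSpace

variable {m : ℕ}

theorem rg_mono {κ κ' c : ℝ} (hκ : κ ≤ κ') (hκ1 : κ ≤ 1) (hc : 0 ≤ c) {ζ : Z m}
    (h : ζ ∈ Rg m κ c) : ζ ∈ Rg m κ' c := by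
  obtain ⟨h1, h2, h3, h4⟩ := h
  have h0 : 0 ≤ ζ.1 := by linarith
  refine ⟨by linarith, by linarith, h3.trans ?_, h4.trans ?_⟩
  · exact mul_le_mul_of_nonneg_right (by linarith) h0
  · exact mul_le_mul_of_nonneg_right (by linarith) hc

theorem cls_mono2 {L : ℕ} {κ κ' R A A' : ℝ} {G : Z m → ℂ} (hκ : κ ≤ κ') (hκ1 : κ ≤ 1)
    (hR : 0 < R) (hA : 0 ≤ A) (hAA : A ≤ A') (h : Cls L κ R A G) : Cls L κ' R A' G := by
  refine ⟨h.1, fun ζ hζ => rg_mono hκ hκ1 (inv_nonneg.2 hR.le) (h.2.1 ζ hζ),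
    fun φ hφ η s r z₀ hs hs1 hr hrR => (h.2.2 φ hφ η s r z₀ hs hs1 hr hrR).trans ?_⟩
  apply ENNReal.ofReal_le_ofReal
  have hr0 : 0 < r := by linarith
  gcongr

theorem pf_SSCp (hSSC : T_SSC) (hBCC : T_BCC) (hBCS : T_BCS) : T_SSCp := by
  intro m L β Ψ Ξ ψ χ δ ε₀ δ' hβ hΨ hΞ hδ hδ4 hδε hε hδ' hL
  obtain ⟨C0, hC0, h0⟩ := hSSC m L β Ψ Ξ ψ χ δ δ' hβ hΨ hΞ hδ hδ4 hδ' hL
  obtain ⟨C1, hC1, h1⟩ := hBCS m L β Ψ Ξ ψ χ δ ε₀ δ' hβ hΨ hΞ hδ hδ4 hδε (by linarith) hδ'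
  obtain ⟨C2, hC2, h2⟩ := hBCC m L β hβ
  have hC00 : 1 ≤ C0 ^ 2 := one_le_pow₀ hC0
  have hCC : 1 ≤ C2 * C0 ^ 2 := one_le_mul_of_one_le_of_one_le hC2 hC00
  refine ⟨8 * C0 + C1 + C2 * C0 ^ 2, by linarith, ?_⟩
  intro κ R T A G S w hκ hκ3 hR hCR hRT hA hG hBC hS
  set C := 8 * C0 + C1 + C2 * C0 ^ 2 with hC
  have hR0 : 0 < R := by linarith
  have hC0C : C0 ≤ C := by linarith
  have hC1C : C1 ≤ C := by linarith
  have hC1' : 1 ≤ C := by linarith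
  have hCpos : 0 < C := by linarith
  have hCsq : C ≤ C ^ 2 := by nlinarith
  have hC2C : C2 * C0 ^ 2 ≤ C ^ 2 := by linarith
  set r := R ^ (1 - ε₀) with hr
  have hr0 : 0 < r := Real.rpow_pos_of_pos hR0 _
  have hr1 : 1 ≤ r := Real.one_le_rpow hR (by linarith)
  have hrR : r ≤ R := by
    calc r ≤ R ^ (1 : ℝ) := Real.rpow_le_rpow_of_exponent_le hR (by linarith)
      _ = R := Real.rpow_one R
  have hsr : Real.sqrt R ≤ r := by
    rw [Real.sqrt_eq_rpow]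
    exact Real.rpow_le_rpow_of_exponent_le hR (by linarith)
  have e1 : R / r = R ^ ε₀ := by
    rw [hr]
    nth_rewrite 1 [← Real.rpow_one R]
    rw [← Real.rpow_sub hR0]
    congr 1
    ring
  have hRr1 : 0 < R / r := by positivity
  have hRd : R ^ δ ≤ R ^ ε₀ := Real.rpow_le_rpow_of_exponent_le hR (by linarith)
  have hrC : r ≤ R / C0 := by
    rw [le_div_iff₀ (by linarith)]
    have h3 : C0 ≤ R / r := by
      rw [e1]
      linarith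
    rw [le_div_iff₀ hr0] at h3
    linarith
  obtain ⟨G', hG', hF⟩ := h0 κ R r A G S w hκ hκ3 hR (by linarith) hsr hrC hA hG
  have hRnd : 0 < R ^ (-δ) := Real.rpow_pos_of_pos hR0 _
  have hRd' : 1 ≤ R ^ δ' := Real.one_le_rpow hR hδ'.le
  have hRm : 0 < (R / r) ^ ((m : ℝ) / 2) := Real.rpow_pos_of_pos hRr1 _
  have hCR8 : C * R ^ (-δ) ≤ 1 := by
    rw [Real.rpow_neg hR0.le, ← div_eq_mul_inv, div_le_one (by positivity)]
    exact hCR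
  have hC08 : C0 * R ^ (-δ) ≤ 1 / 8 := by
    have : 8 * (C0 * R ^ (-δ)) ≤ C * R ^ (-δ) := by
      rw [← mul_assoc]
      exact mul_le_mul_of_nonneg_right (by linarith) hRnd.le
    linarith
  have hC0n : 0 ≤ C0 * R ^ (-δ) := by positivity
  have hA0 : 0 < C0 * R ^ δ' * A * (R / r) ^ ((m : ℝ) / 2) := by positivity
  have hAA : C0 * R ^ δ' * A * (R / r) ^ ((m : ℝ) / 2) ≤
      C * R ^ δ' * A * (R / r) ^ ((m : ℝ) / 2) := by gcongr
  have hκκ : κ + C0 * R ^ (-δ) ≤ κ + C * R ^ (-δ) := by gcongr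
  have hsq : ∀ c : ℝ, (c * R ^ δ' * A * (R / r) ^ ((m : ℝ) / 2)) ^ 2 * r ^ m =
      c ^ 2 * (R ^ δ') ^ 2 * (A ^ 2 * R ^ m) := by
    intro c
    have e2 : ((R / r) ^ ((m : ℝ) / 2)) ^ 2 = (R / r) ^ m := by
      rw [← Real.rpow_natCast ((R / r) ^ ((m : ℝ) / 2)) 2, ← Real.rpow_mul hRr1.le,
        ← Real.rpow_natCast (R / r) m]
      congr 1
      push_cast
      ring
    rw [mul_pow, e2, div_pow]
    field_simp
  refine ⟨G', cls_mono2 hκκ (by linarith) hr0 hA0.le hAA hG', ?_, hF⟩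
  intro ρ z₁ p hρ hρr hlo hhi
  have hT0 : 0 ≤ T := by linarith
  have hρ0 : 0 < ρ := by linarith
  rcases le_total (Real.sqrt R) ρ with hcase | hcase
  · refine (h1 κ R T A ρ G G' S w z₁ p hκ hκ3 hR (by linarith) hRT hA hG hBC hS hG'.1 hF hcase
      hρr ?_ ?_).trans (ENNReal.ofReal_le_ofReal ?_)
    · refine le_trans ?_ hlo
      gcongr
    · refine hhi.trans ?_
      gcongr
    · rw [hsq C]
      have hx : 0 < A ^ 2 * R ^ m * ρ ^ (3 - (m : ℝ) / 2) := by positivity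
      have h3 : C1 * R ^ δ' ≤ C ^ 2 * (R ^ δ') ^ 2 := by
        have h4 : C1 ≤ C ^ 2 := by linarith
        have h5 : R ^ δ' ≤ (R ^ δ') ^ 2 := by nlinarith
        exact mul_le_mul h4 h5 (by positivity) (by positivity)
      calc C1 * R ^ δ' * (A ^ 2 * R ^ m * ρ ^ (3 - (m : ℝ) / 2))
          ≤ C ^ 2 * (R ^ δ') ^ 2 * (A ^ 2 * R ^ m * ρ ^ (3 - (m : ℝ) / 2)) :=
            mul_le_mul_of_nonneg_right h3 hx.le
        _ = C ^ 2 * (R ^ δ') ^ 2 * (A ^ 2 * R ^ m) * ρ ^ (3 - (m : ℝ) / 2) := by ring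
  · have hρ32 : ρ ^ (3 / 2 : ℝ) ≤ r := by
      calc ρ ^ (3 / 2 : ℝ) ≤ (Real.sqrt R) ^ (3 / 2 : ℝ) :=
            Real.rpow_le_rpow hρ0.le hcase (by norm_num)
        _ = R ^ (3 / 4 : ℝ) := by
            rw [Real.sqrt_eq_rpow, ← Real.rpow_mul hR0.le]
            norm_num
        _ ≤ r := Real.rpow_le_rpow_of_exponent_le hR (by linarith)
    refine (h2 (κ + C0 * R ^ (-δ)) r T (C0 * R ^ δ' * A * (R / r) ^ ((m : ℝ) / 2)) ρ G' z₁ p
      (by positivity) (by linarith) hr1 hρ hρ32 (by linarith) hA0 hG' ?_).trans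
      (ENNReal.ofReal_le_ofReal ?_)
    · have h3 : (1 / 4 : ℝ) * T ≤ (1 / 4 + (κ + C * R ^ (-δ))) * T := by
        have : 0 ≤ (κ + C * R ^ (-δ)) * T := by positivity
        nlinarith
      linarith
    · rw [hsq C0, hsq C]
      have h4 : ρ ^ (5 / 2 - (m : ℝ) / 2) ≤ ρ ^ (3 - (m : ℝ) / 2) :=
        Real.rpow_le_rpow_of_exponent_le hρ (by linarith)
      calc C2 * (C0 ^ 2 * (R ^ δ') ^ 2 * (A ^ 2 * R ^ m) * ρ ^ (5 / 2 - (m : ℝ) / 2))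
          = C2 * C0 ^ 2 * ((R ^ δ') ^ 2 * (A ^ 2 * R ^ m)) * ρ ^ (5 / 2 - (m : ℝ) / 2) := by ring
        _ ≤ C ^ 2 * ((R ^ δ') ^ 2 * (A ^ 2 * R ^ m)) * ρ ^ (3 - (m : ℝ) / 2) := by
            refine mul_le_mul (mul_le_mul_of_nonneg_right hC2C (by positivity)) h4
              (by positivity) (by positivity)
        _ = C ^ 2 * (R ^ δ') ^ 2 * (A ^ 2 * R ^ m) * ρ ^ (3 - (m : ℝ) / 2) := by ring

end Pool.Agent.H40.HD
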